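import Pool.Agent.Helper68.PT.Core
import Pool.Agent.Helper50.ETH.Defs
import Pool.Agent.Helper67.ETH.Arith

/-!
# Project ETH: polynomial time budgets

* `tpow P x y = min P (x ^ y)` is polynomial time computable in the unary arguments;
* integer roots, logarithms, and the parameters `k0, kap, rr, gg, DD, mm, qq` of the reduction are
  polynomial time functions of the unary number `n`;
* the budget `B n = C * (root_b (n ^ a) + 1)` is a polynomial time function of `n`, and so is the
  test `2 ^ (B n) ≤ P`.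
-/

set_option autoImplicit false

namespace Pool.Agent.Helper15.ETH

open Pool.Agent.Helper36.PT Pool.Agent.Helper50.ETH

variable {α : Type} [Enc α]

/-! ### Truncated powers -/

/-- The power `x ^ y` truncated at `P`. -/
def tpow (P x y : ℕ) : ℕ := min P (x ^ y)

theorem recN_tpow (P x : ℕ) : ∀ y : ℕ,
    recN (min P 1) (fun _ s => min P (s * x)) y = tpow P x y
  | 0 => by simp [recN, tpow]
  | y + 1 => by
    have ih := recN_tpow P x y
    have h1 : recN (min P 1) (fun _ s => min P (s * x)) (y + 1) =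
        min P (recN (min P 1) (fun _ s => min P (s * x)) y * x) := rfl
    rw [h1, ih]
    unfold tpow
    rw [pow_succ]
    rcases le_total P (x ^ y) with h | h
    · rw [min_eq_left h]
      rcases Nat.eq_zero_or_pos x with hx | hx
      · subst hx
        rcases Nat.eq_zero_or_pos y with hy | hy
        · subst hy
          simp
        · have h0 : (0 : ℕ) ^ y = 0 := Nat.zero_pow hy
          rw [h0] at h
          have hP : P = 0 := by omega
          subst hP
          simp
      · have h2 : P ≤ P * x := Nat.le_mul_of_pos_right P hx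
        have h3 : P ≤ x ^ y * x := h.trans (Nat.le_mul_of_pos_right _ hx)
        rw [min_eq_left h2, min_eq_left h3]
    · rw [min_eq_right h]

@[fun_prop]
theorem PolyTime.tpow {P x y : α → ℕ} (hP : PolyTime P) (hx : PolyTime x) (hy : PolyTime y) :
    PolyTime (fun a => tpow (P a) (x a) (y a)) := by
  have hh : PolyTime (fun p : (α × ℕ) × ℕ => min (P p.1.1) (p.2 * x p.1.1)) := by
    fun_prop
  have hg : PolyTime (fun a : α => min (P a) 1) := by fun_prop
  have hr := PolyTime.recN (n := y) (g := fun a => min (P a) 1)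
    (h := fun a _ s => min (P a) (s * x a)) hy hg hh ⟨P, bdd_nat hP, by
      intro a i _
      rw [esz_nat, recN_tpow]
      exact min_le_left _ _⟩
  exact hr.congr (fun a => recN_tpow (P a) (x a) (y a))

/-- If the power is at most `P`, then the truncated power is the power. -/
theorem tpow_eq {P x y : ℕ} (h : x ^ y ≤ P) : ETH.tpow P x y = x ^ y := min_eq_right h

theorem tpow_le_left (P x y : ℕ) : ETH.tpow P x y ≤ P := min_le_left _ _

theorem tpow_le_right (P x y : ℕ) : ETH.tpow P x y ≤ x ^ y := min_le_right _ _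

/-- The comparison of a power with `P`. -/
theorem pow_le_iff_tpow (P x y : ℕ) : x ^ y ≤ P ↔ ETH.tpow (P + 1) x y ≤ P := by
  unfold ETH.tpow
  omega

theorem le_pow_iff_tpow (P x y : ℕ) : P ≤ x ^ y ↔ P ≤ ETH.tpow P x y := by
  unfold ETH.tpow
  omega

@[fun_prop]
theorem PolyTime.pPowLe {P x y : α → ℕ} (hP : PolyTime P) (hx : PolyTime x) (hy : PolyTime y) :
    PolyTime (fun a => x a ^ y a ≤ P a) := by
  have h : PolyTime (fun a => ETH.tpow (P a + 1) (x a) (y a) ≤ P a) := by fun_prop
  exact h.congr (fun a => propext (pow_le_iff_tpow _ _ _).symm)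

@[fun_prop]
theorem PolyTime.pLePow {P x y : α → ℕ} (hP : PolyTime P) (hx : PolyTime x) (hy : PolyTime y) :
    PolyTime (fun a => P a ≤ x a ^ y a) := by
  have h : PolyTime (fun a => P a ≤ ETH.tpow (P a) (x a) (y a)) := by fun_prop
  exact h.congr (fun a => propext (le_pow_iff_tpow _ _ _).symm)

/-! ### Roots and logarithms -/

/-- The least `x` with `m ≤ x ^ b`. -/
noncomputable def root (b m : ℕ) : ℕ := mu (m + 1) (fun x => m ≤ x ^ b)

theorem root_exists {b : ℕ} (hb : 0 < b) (m : ℕ) : ∃ x < m + 1, m ≤ x ^ b :=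
  ⟨m, Nat.lt_succ_self m, Nat.le_self_pow hb.ne' m⟩

theorem root_spec {b : ℕ} (hb : 0 < b) (m : ℕ) : m ≤ root b m ^ b :=
  (mu_spec (root_exists hb m)).2

theorem root_min {b m x : ℕ} (hx : m ≤ x ^ b) : root b m ≤ x := by
  by_contra h
  exact mu_min (not_le.1 h) hx

theorem root_unique {b m r : ℕ} (hb : 0 < b) (h1 : m ≤ r ^ b) (h2 : ∀ x < r, ¬ m ≤ x ^ b) :
    root b m = r := by
  refine le_antisymm (root_min h1) ?_
  by_contra h
  exact h2 _ (not_le.1 h) (root_spec hb m)

@[fun_prop]
theorem PolyTime.root (b : ℕ) {f : α → ℕ} (hf : PolyTime f) :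
    PolyTime (fun a => root b (f a)) := by
  have h : PolyTime (fun a => mu (f a + 1) (fun x => f a ≤ x ^ b)) := by fun_prop
  exact h

theorem log2_eq_mu (m : ℕ) : Nat.log 2 m = mu m (fun i => m < 2 ^ (i + 1)) := by
  rcases Nat.eq_zero_or_pos m with hm | hm
  · subst hm
    have h := mu_le 0 (fun i => 0 < 2 ^ (i + 1))
    simp only [Nat.log_zero_right]
    omega
  · have h1 : m < 2 ^ (Nat.log 2 m + 1) := Nat.lt_pow_succ_log_self (by norm_num) m
    have h2 : Nat.log 2 m < m := Nat.log_lt_self 2 hm.ne'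
    have h3 := mu_spec (n := m) (Q := fun i => m < 2 ^ (i + 1)) ⟨Nat.log 2 m, h2, h1⟩
    refine le_antisymm ?_ ?_
    · by_contra h
      have h4 : mu m (fun i => m < 2 ^ (i + 1)) + 1 ≤ Nat.log 2 m := by omega
      have h5 : 2 ^ (mu m (fun i => m < 2 ^ (i + 1)) + 1) ≤ 2 ^ Nat.log 2 m :=
        Nat.pow_le_pow_right (by norm_num) h4
      have h6 : 2 ^ Nat.log 2 m ≤ m := Nat.pow_log_le_self 2 hm.ne'
      have h7 := h3.2
      omega
    · by_contra h
      exact mu_min (not_le.1 h) h1

@[fun_prop]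
theorem PolyTime.log2 {f : α → ℕ} (hf : PolyTime f) :
    PolyTime (fun a => Nat.log 2 (f a)) := by
  have h1 : PolyTime (fun p : α × ℕ => ¬ ((2 : ℕ) ^ (p.2 + 1) ≤ f p.1)) := by fun_prop
  have h2 : PolyTime (fun p : α × ℕ => f p.1 < 2 ^ (p.2 + 1)) :=
    h1.congr (fun p => propext not_le)
  have h3 : PolyTime (fun a => mu (f a) (fun i => f a < 2 ^ (i + 1))) :=
    PolyTime.mu hf (PolyTime.toPred h2)
  exact h3.congr (fun a => (log2_eq_mu (f a)).symm)

/-! ### The parameters of the reduction -/

@[fun_prop]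
theorem PolyTime.k0 {f : α → ℕ} (hf : PolyTime f) : PolyTime (fun a => k0 (f a)) := by
  have h : PolyTime (fun a => mu (f a + 1) (fun k => f a ≤ k ^ 3 * Nat.log 2 (k + 2))) := by
    fun_prop
  exact h

@[fun_prop]
theorem PolyTime.kap {f : α → ℕ} (hf : PolyTime f) : PolyTime (fun a => kap (f a)) := by
  have h : PolyTime (fun a => Helper50.ETH.k0 (f a) + 2) := by fun_prop
  exact h

@[fun_prop]
theorem PolyTime.rr {f : α → ℕ} (hf : PolyTime f) : PolyTime (fun a => rr (f a)) := by
  have h : PolyTime (fun a => Nat.log 2 (Helper50.ETH.kap (f a))) := by fun_prop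
  exact h

@[fun_prop]
theorem PolyTime.gg {f : α → ℕ} (hf : PolyTime f) : PolyTime (fun a => gg (f a)) := by
  have h : PolyTime (fun a => Helper50.ETH.kap (f a) * Helper50.ETH.rr (f a)) := by fun_prop
  exact h

@[fun_prop]
theorem PolyTime.DD {f : α → ℕ} (hf : PolyTime f) : PolyTime (fun a => DD (f a)) := by
  have h : PolyTime (fun a => Helper50.ETH.kap (f a) ^ 2) := by fun_prop
  exact h

@[fun_prop]
theorem PolyTime.mm {f : α → ℕ} (hf : PolyTime f) : PolyTime (fun a => mm (f a)) := by
  have h : PolyTime (fun a => Helper50.ETH.DD (f a) ^ 3) := by fun_prop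
  exact h

@[fun_prop]
theorem PolyTime.qq {f : α → ℕ} (hf : PolyTime f) : PolyTime (fun a => qq (f a)) := by
  have h : PolyTime (fun a => mu (2 * Helper50.ETH.mm (f a) + 1)
      (fun q => Helper50.ETH.mm (f a) ≤ q ∧ q.Prime)) := by
    fun_prop
  exact h

/-! ### The budget -/

theorem rootUp_eq {b : ℕ} (hb : 0 < b) (m : ℕ) : Helper67.ETH.rootUp b m = ETH.root b m :=
  le_antisymm (Helper67.ETH.rootUp_le (root_spec hb m))
    (root_min (Helper67.ETH.rootUp_spec hb m))

/-- The polynomial time function `B` of the final theorem. -/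
theorem polyTime_B (C a : ℕ) {b : ℕ} (hb : 0 < b) :
    PolyTime (fun n : ℕ => C * (Helper67.ETH.rootUp b (n ^ a) + 1)) := by
  have h : PolyTime (fun n : ℕ => C * (ETH.root b (n ^ a) + 1)) := by fun_prop
  exact h.congr (fun n => by rw [rootUp_eq hb])

/-- The budget of the machine: `C * (root_b (n ^ a) + 1)`. -/
noncomputable def budget (C a b n : ℕ) : ℕ := C * (ETH.root b (n ^ a) + 1)

@[fun_prop]
theorem PolyTime.budget (C a b : ℕ) {f : α → ℕ} (hf : PolyTime f) :
    PolyTime (fun x => budget C a b (f x)) := by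
  have h : PolyTime (fun x => C * (ETH.root b (f x ^ a) + 1)) := by fun_prop
  exact h

/-- The test of the budget: is `2 ^ (B n) ≤ P`? -/
theorem PolyTime.test (C a b : ℕ) {f P : α → ℕ} (hf : PolyTime f) (hP : PolyTime P) :
    PolyTime (fun x => 2 ^ ETH.budget C a b (f x) ≤ P x) := by
  fun_prop

/-- Truncated `2 ^ (B n)`. -/
theorem PolyTime.tbudget (C a b : ℕ) {f P : α → ℕ} (hf : PolyTime f) (hP : PolyTime P) :
    PolyTime (fun x => ETH.tpow (P x) 2 (ETH.budget C a b (f x))) := by
  fun_prop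

end Pool.Agent.Helper15.ETH
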